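import Pool.Agent.Lib.MP_b5021c_nt.E1.H80.Iface
import Pool.Agent.Lib.MP_b5021c_nt.E.H82.One
import Pool.Agent.Lib.MP_b5021c_nt.B.H36.Evr

/-!
# MP_b5021c_nt, row E1R_BAS: the case of rank zero
-/

namespace Pool.Agent.B5.Nr.H78

open Pool.Agent.B5 Pool.Agent.B5.Nr Pool.Agent.B5.E.H82

theorem Am_zero (h : RO ℤ) : Am 0 h = (h.coeff 0 : ℝ) := by
  unfold Am
  rw [Finsupp.sum_eq_single (0 : ℤ)]
  · simp
  · intro k _ hk
    have : k.natAbs ≠ 0 := by omega
    rw [zero_pow this, mul_zero]
  · intro _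
    simp

theorem cont_evL' (b : RO ℤ) : ContinuousOn (fun z : ℂ => evL z b) (Metric.sphere 0 1) := by
  have h : (fun z : ℂ => evL z b) = fun z => ∑ n ∈ b.coeff.support, Coef.emb (b.coeff n) * z ^ n :=
    rfl
  rw [h]
  apply continuousOn_finsetSum
  intro n _
  refine continuousOn_const.mul ?_
  intro z hz
  have hz1 : ‖z‖ = 1 := by simpa using hz
  have hz0 : z ≠ 0 := by
    intro h0
    rw [h0, norm_zero] at hz1
    norm_num at hz1
  exact (continuousAt_zpow₀ z n (Or.inl hz0)).continuousWithinAt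

theorem ci (a : ℂ) (ha : ‖a‖ < 1) (b : RO ℤ) :
    CircleIntegrable (fun z => (1 - ‖a‖ ^ 2) / ‖z - a‖ ^ 2 * (evL z b).re) 0 1 := by
  apply ContinuousOn.circleIntegrable'
  rw [abs_one]
  refine ContinuousOn.mul ?_ (Complex.continuous_re.comp_continuousOn (cont_evL' b))
  refine ContinuousOn.div continuousOn_const ?_ ?_
  · fun_prop
  · intro z hz h0
    have hz1 : ‖z‖ = 1 := by simpa using hz
    have h1 : ‖z - a‖ = 0 := by simpa using h0
    have h2 : z = a := by
      rw [norm_eq_zero] at h1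
      exact sub_eq_zero.1 h1
    rw [h2] at hz1
    linarith

theorem lower (hAmb : AmbS) (a : ℝ) (ha : |a| < 1) (h : RO ℤ)
    (hpos : ∀ z : Circle, 0 ≤ (evR z h).re) :
    (1 - |a|) / (1 + |a|) * (h.coeff 0 : ℝ) ≤ Am a h := by
  have hna : ‖(a : ℂ)‖ = |a| := by rw [Complex.norm_real, Real.norm_eq_abs]
  have ha1 : ‖(a : ℂ)‖ < 1 := by rw [hna]; exact ha
  have h1 : pmn (a : ℂ) h = Am a h := (hAmb a).2.2 ha h
  have h2 : pmn (0 : ℂ) h = (h.coeff 0 : ℝ) := by
    have := (hAmb 0).2.2 (by simp) h
    rw [Complex.ofReal_zero] at this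
    rw [this, Am_zero]
  rw [← h1, ← h2]
  unfold pmn
  rw [← smul_eq_mul, ← Real.circleAverage_fun_smul]
  refine Real.circleAverage_mono ?_ (ci _ ha1 h) ?_
  · exact (ci 0 (by simp) h).const_smul
  · intro z hz
    rw [abs_one] at hz
    have hz1 : ‖z‖ = 1 := by simpa using hz
    have hv : 0 ≤ (evL z h).re := by
      have := hpos ⟨z, mem_sphere_zero_iff_norm.2 hz1⟩
      rw [H36.evR_eq] at this
      exact this
    have hd : ‖z - (a : ℂ)‖ ≤ 1 + |a| := by
      calc ‖z - (a : ℂ)‖ ≤ ‖z‖ + ‖(a : ℂ)‖ := norm_sub_le _ _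
        _ = 1 + |a| := by rw [hz1, hna]
    have hd0 : 0 < ‖z - (a : ℂ)‖ := by
      rw [norm_pos_iff, sub_ne_zero]
      intro hza
      rw [hza] at hz1
      linarith
    have hx0 : 0 ≤ |a| := abs_nonneg a
    have hk : (1 - |a|) / (1 + |a|) ≤ (1 - ‖(a : ℂ)‖ ^ 2) / ‖z - (a : ℂ)‖ ^ 2 := by
      rw [hna, div_le_div_iff₀ (by linarith) (by positivity)]
      have h3 : ‖z - (a : ℂ)‖ ^ 2 ≤ (1 + |a|) ^ 2 := pow_le_pow_left₀ hd0.le hd 2
      calc (1 - |a|) * ‖z - (a : ℂ)‖ ^ 2 ≤ (1 - |a|) * (1 + |a|) ^ 2 :=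
            mul_le_mul_of_nonneg_left h3 (by linarith)
        _ = (1 - |a| ^ 2) * (1 + |a|) := by ring
    have he : ((1 - |a|) / (1 + |a|)) • ((1 - ‖(0 : ℂ)‖ ^ 2) / ‖z - 0‖ ^ 2 * (evL z h).re) =
        (1 - |a|) / (1 + |a|) * (evL z h).re := by
      rw [smul_eq_mul, norm_zero, sub_zero, hz1]
      norm_num
    calc ((1 - |a|) / (1 + |a|)) • ((1 - ‖(0 : ℂ)‖ ^ 2) / ‖z - 0‖ ^ 2 * (evL z h).re) =
        (1 - |a|) / (1 + |a|) * (evL z h).re := he
      _ ≤ _ := mul_le_mul_of_nonneg_right hk hv

theorem bas (hAmb : AmbS) : BasS := by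
  intro a h ha hsym hpos hne
  classical
  set c : ℤ →₀ ℤ := h.coeff with hc
  have hx0 : 0 ≤ |a| := abs_nonneg a
  have hs : ∀ k, c (-k) = c k := by
    intro k
    have h1 : (rsh h).coeff k = h.coeff (-k) := by
      rw [rsh_int, LaurentPolynomial.invert_apply]
    rw [hsym] at h1
    exact h1.symm
  have hev : ∀ w : ℂ, ‖w‖ = 1 → 0 ≤ (c.sum fun k a => (a : ℂ) * w ^ k).re := by
    intro w hw
    have := hpos ⟨w, mem_sphere_zero_iff_norm.2 hw⟩
    rw [H36.evR_eq] at this
    exact this
  have hlow := lower hAmb a (by linarith) h hpos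
  by_cases hex : ∃ M : ℕ, 0 < M ∧ c M ≠ 0
  · -- the largest index
    have hbd : ∀ M : ℕ, c M ≠ 0 → M ≤ c.support.sup Int.natAbs := by
      intro M hM
      have := Finset.le_sup (f := Int.natAbs) (Finsupp.mem_support_iff.2 hM)
      simpa using this
    set M := Nat.findGreatest (fun M : ℕ => c M ≠ 0) (c.support.sup Int.natAbs) with hMdef
    obtain ⟨M1, hM1, hM1'⟩ := hex
    have hMge : M1 ≤ M := Nat.le_findGreatest (hbd M1 hM1') hM1'
    have hM0 : 0 < M := lt_of_lt_of_le hM1 hMge
    have hMne : c M ≠ 0 := Nat.findGreatest_spec (P := fun M : ℕ => c M ≠ 0) (hbd M1 hM1') hM1'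
    have hgt : ∀ k : ℤ, (M : ℤ) < k → c k = 0 := by
      intro k hk
      by_contra hne'
      have hk' : k = ((k.toNat : ℕ) : ℤ) := by omega
      rw [hk'] at hne'
      have := Nat.le_findGreatest (P := fun M : ℕ => c M ≠ 0) (hbd _ hne') hne'
      omega
    have htp : ∀ w : ℂ, ‖w‖ = 1 → 0 ≤ tp M (c 0) (fun k => ((c k : ℤ) : ℂ)) w := by
      intro w hw
      have h1 := hev w hw
      rw [sum_tp c hs M hgt w hw] at h1
      exact h1
    have hlead : ‖((c M : ℤ) : ℂ)‖ ≤ (c 0 : ℝ) / 2 := by
      apply ov1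
      intro v hv
      rcases Nat.lt_or_ge 1 M with h2 | h2
      · exact (norm_nonneg _).trans (aliasing M (c 0) _ htp 1 le_rfl h2 v hv)
      · have hM1 : M = 1 := by omega
        have := htp v hv
        rw [hM1] at this ⊢
        simpa [tp] using this
    have hnorm : ‖((c M : ℤ) : ℂ)‖ = ((|c M| : ℤ) : ℝ) := by
      rw [Complex.norm_intCast]
      push_cast
      rfl
    have habs1 : 1 ≤ |c M| := Int.one_le_abs hMne
    have hc02 : 2 * |c M| ≤ c 0 := by
      rw [hnorm] at hlead
      have : ((2 * |c M| : ℤ) : ℝ) ≤ ((c 0 : ℤ) : ℝ) := by push_cast at hlead ⊢; linarith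
      exact_mod_cast this
    have h2c : 2 ≤ c 0 := by omega
    rcases h2c.eq_or_lt with h2 | h3
    · -- constant term two
      have hM1a : |c M| = 1 := by omega
      have hmid : ∀ k : ℕ, 1 ≤ k → k < M → c k = 0 := by
        intro k hk1 hk2
        have h5 := con M (c 0) (fun k => ((c k : ℤ) : ℂ)) htp (by
          rw [hnorm, hM1a, ← h2]
          norm_num) k hk1 hk2
        exact_mod_cast h5
      have hval : Am a h = 2 + 2 * (c M : ℝ) * a ^ M := by
        unfold Am
        rw [← hc, Finsupp.sum_of_support_subset (s := {0, (M : ℤ), -(M : ℤ)})]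
        · rw [Finset.sum_insert, Finset.sum_insert, Finset.sum_singleton, hs, ← h2]
          · simp
            ring
          · rw [Finset.mem_singleton]; omega
          · simp only [Finset.mem_insert, Finset.mem_singleton]; omega
        · intro k hk
          rw [Finsupp.mem_support_iff] at hk
          by_contra hcon
          simp only [Finset.mem_insert, Finset.mem_singleton, not_or] at hcon
          obtain ⟨hk0, hkM, hkm⟩ := hcon
          apply hk
          rcases lt_or_gt_of_ne hk0 with hneg | hpos'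
          · rw [← neg_neg k, hs]
            by_cases hb : -k ≤ M
            · have e : -k = (((-k).toNat : ℕ) : ℤ) := by omega
              rw [e]
              exact hmid _ (by omega) (by omega)
            · exact hgt _ (by omega)
          · by_cases hb : k ≤ M
            · have e : k = ((k.toNat : ℕ) : ℤ) := by omega
              rw [e]
              exact hmid _ (by omega) (by omega)
            · exact hgt _ (by omega)
        · intro k _
          simp
      have hb : |2 * (c M : ℝ) * a ^ M| ≤ 2 * |a| := by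
        rw [abs_mul, abs_mul, abs_pow]
        have e1 : |(c M : ℝ)| = 1 := by
          rw [← Int.cast_abs, hM1a]
          norm_num
        rw [e1]
        have e2 : |a| ^ M ≤ |a| := by
          calc |a| ^ M ≤ |a| ^ 1 := pow_le_pow_of_le_one hx0 (by linarith) hM0
            _ = |a| := pow_one _
        rw [abs_of_pos (by norm_num : (0 : ℝ) < 2)]
        linarith
      have hb2 := (abs_le.mp hb).1
      rw [hval]
      constructor
      · linarith
      · intro _
        linarith
    · have h3' : (3 : ℝ) ≤ (h.coeff 0 : ℝ) := by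
        have : (3 : ℤ) ≤ c 0 := h3
        exact_mod_cast this
      have hr : 0 ≤ (1 - |a|) / (1 + |a|) := div_nonneg (by linarith) (by linarith)
      have h4 : (1 - |a|) / (1 + |a|) * 3 ≤ Am a h :=
        (mul_le_mul_of_nonneg_left h3' hr).trans hlow
      have h5 : 2 - 2 * |a| ≤ (1 - |a|) / (1 + |a|) * 3 := by
        rw [div_mul_eq_mul_div, le_div_iff₀ (by linarith)]
        have h6 : 0 ≤ (1 - |a|) * (1 - 2 * |a|) := mul_nonneg (by linarith) (by linarith)
        linarith [show (2 - 2 * |a|) * (1 + |a|) = (1 - |a|) * 3 - (1 - |a|) * (1 - 2 * |a|) by ring]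
      constructor
      · linarith
      · intro _
        linarith
  · push Not at hex
    have hz : ∀ k : ℤ, k ≠ 0 → c k = 0 := by
      intro k hk
      rcases lt_or_gt_of_ne hk with hneg | hpos'
      · rw [← neg_neg k, hs]
        have e : -k = (((-k).toNat : ℕ) : ℤ) := by omega
        rw [e]
        exact hex _ (by omega)
      · have e : k = ((k.toNat : ℕ) : ℤ) := by omega
        rw [e]
        exact hex _ (by omega)
    have hval : Am a h = (c 0 : ℝ) := by
      unfold Am
      rw [← hc, Finsupp.sum_eq_single (0 : ℤ)]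
      · simp
      · intro k _ hk
        rw [hz k hk]
        simp
      · intro _
        simp
    have h0 : 0 ≤ c 0 := by
      have h1 := hev 1 (by simp)
      rw [Finsupp.sum_eq_single (0 : ℤ)] at h1
      · simp at h1
        exact h1
      · intro k _ hk
        rw [hz k hk]
        simp
      · intro _
        simp
    have h1 : c 0 ≠ 0 := by
      intro h2
      apply hne
      apply AddMonoidAlgebra.ext
      apply Finsupp.ext
      intro k
      by_cases hk : k = 0
      · rw [hk]
        exact h2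
      · exact hz k hk
    have h2 : (1 : ℝ) ≤ (c 0 : ℝ) := by
      have : 1 ≤ c 0 := by omega
      exact_mod_cast this
    rw [hval]
    refine ⟨h2, fun h3 => ?_⟩
    have h4 : (2 : ℝ) ≤ (c 0 : ℝ) := by
      have : (2 : ℤ) ≤ c 0 := h3
      exact_mod_cast this
    linarith

end Pool.Agent.B5.Nr.H78
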